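import Pool.Agent.H870R4.Noz.Stmts

set_option autoImplicit false

/-! # TaskCV: change of variables -/

open MeasureTheory Set

namespace Pool.Agent.H023R3.Noz

open H870N

lemma det_E2 (T : E2 →L[ℝ] E2) :
    T.det = (T e0) 0 * (T e1) 1 - (T e1) 0 * (T e0) 1 := by
  have h : T.det = (LinearMap.toMatrix (EuclideanSpace.basisFun (Fin 2) ℝ).toBasis
      (EuclideanSpace.basisFun (Fin 2) ℝ).toBasis (T : E2 →ₗ[ℝ] E2)).det := by
    rw [LinearMap.det_toMatrix]
  rw [h, Matrix.det_fin_two]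
  simp [LinearMap.toMatrix_apply, e0, e1]

lemma norm_sq_E2 (a : E2) : ‖a‖ ^ 2 = a 0 ^ 2 + a 1 ^ 2 := by
  rw [EuclideanSpace.norm_sq_eq]
  simp [Fin.sum_univ_two]

lemma inner_E2 (a b : E2) : inner ℝ a b = a 0 * b 0 + a 1 * b 1 := by
  rw [PiLp.inner_apply]
  simp [Fin.sum_univ_two, mul_comm]

lemma det_sq (T : E2 →L[ℝ] E2) :
    T.det ^ 2 = ‖T e0‖ ^ 2 * ‖T e1‖ ^ 2 - (inner ℝ (T e0) (T e1)) ^ 2 := by
  rw [det_E2, norm_sq_E2, norm_sq_E2, inner_E2]
  ring

lemma isOpen_rect (L R h : ℝ) : IsOpen (rect L R h) := by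
  unfold rect
  have h0 : Continuous fun u : E2 => u 0 := EuclideanSpace.proj (0 : Fin 2) |>.continuous
  have h1 : Continuous fun u : E2 => u 1 := EuclideanSpace.proj (1 : Fin 2) |>.continuous
  exact (isOpen_lt continuous_const h0).inter
    ((isOpen_lt h0 continuous_const).inter (isOpen_lt h1.abs continuous_const))

theorem taskCV : TaskCV := by
  intro Y Xi V r L R h0 hG A hA hAm f
  have hdet : ∀ u ∈ A, |(fderiv ℝ Y u).det| = 1 / (V u ^ 2 * r u) := by
    intro u hu
    have hV := (hG.Vpos u (hA hu)).1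
    have hr := (hG.rpos u (hA hu)).1
    have h1 := det_sq (fderiv ℝ Y u)
    rw [hG.n0 u (hA hu), hG.n1 u (hA hu), hG.orth u (hA hu)] at h1
    have h2 : (fderiv ℝ Y u).det ^ 2 = (1 / (V u ^ 2 * r u)) ^ 2 := by
      rw [h1]
      field_simp
      ring
    rw [← Real.sqrt_sq_eq_abs, h2, Real.sqrt_sq (by positivity)]
  have hf' : ∀ u ∈ A, HasFDerivWithinAt Y (fderiv ℝ Y u) A u := by
    intro u hu
    have h1 : ContDiffAt ℝ 1 Y u := hG.hY.contDiffAt ((isOpen_rect L R h0).mem_nhds (hA hu))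
    exact (h1.differentiableAt (by norm_num)).hasFDerivAt.hasFDerivWithinAt
  have hinj : InjOn Y A := by
    intro u hu v hv h
    rw [← hG.left u (hA hu), ← hG.left v (hA hv), h]
  constructor
  · rw [integrableOn_image_iff_integrableOn_abs_det_fderiv_smul volume hAm hf' hinj]
    apply integrableOn_congr_fun _ hAm
    intro u hu
    simp only [hdet u hu, smul_eq_mul]
    ring
  · rw [integral_image_eq_integral_abs_det_fderiv_smul volume hAm hf' hinj]
    apply setIntegral_congr_fun hAm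
    intro u hu
    simp only [hdet u hu, smul_eq_mul]
    ring

end Pool.Agent.H023R3.Noz
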